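import Pool.Agent.H16.TKA.M29
import Pool.Agent.H16.TKA.M38

/-!
Exponential growth of Kac polynomials at one along rays, for all finite quivers, with a continuous and positively
homogeneous growth function.
-/

set_option autoImplicit false

namespace Pool.Agent.Results.MP_6d5dd1_al.KacGrowthAll

open Filter Topology Polynomial Pool.Agent.H27.KAC

theorem result {I E : Type} [Finite I] [Finite E] (Q : Quiv I E) :
    ∃ p : (I → ℕ) → ℚ[X], (∀ α, IsKacPoly Q α (p α)) ∧
      ∃ F : (I → ℝ) → ℝ, Continuous F ∧ (∀ (t : ℝ) (x : I → ℝ), 0 ≤ t → F (t • x) = t * F x) ∧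
        ∀ α : I → ℕ, (∀ᶠ n : ℕ in atTop, 0 < (p (fun i => n * α i)).eval 1) →
        Tendsto (fun n : ℕ => Real.log (((p (fun i => n * α i)).eval 1 : ℚ) : ℝ) / n) atTop
          (𝓝 (F (fun i => (α i : ℝ)))) :=
  Pool.Agent.H40.KADE.kac_of_cal allCal Q

end Pool.Agent.Results.MP_6d5dd1_al.KacGrowthAll
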